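import Pool.Agent.Lib.MP_2d5ab3_gt.Blocks

open scoped ContDiff
open Pool.Agent.Lib.MP_2d5ab3_gt

/-- A closed hypersurface in the standard contact `ℝ^13` with a `C¹`-neighbourhood that contains
no convex hypersurface. -/
theorem Pool.Agent.Results.MP_2d5ab3_gt.RobustNonconvex.result :
    ∃ S : Set (Jet 6), S.Nonempty ∧ IsClosedHypersurface S ∧ ∃ ε : ℝ, 0 < ε ∧
      ∀ φ : Jet 6 → Jet 6, (∀ x ∈ S, ContDiffAt ℝ ∞ φ x) → C1Close S ε φ → ¬ IsConvex (φ '' S) := by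
  obtain ⟨R, hR, ε, hε, h⟩ := robust
  refine ⟨Sig R, ⟨_, par_mem (R := R) 0 (γ := 0) ?_⟩, isClosedHypersurface_Sig (by linarith), ε, hε,
    fun φ hφ hc ⟨U, hU, hS, V, hV, ht⟩ => h φ V U ⟨hφ, hU, hS, hV, ht⟩ hc⟩
  simp only [Rad, ip3, ip]
  simp
  linarith
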